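import Pool.Agent.W345.SP.Stm

set_option autoImplicit false

open Set MeasureTheory Pool.Agent.W345.SP

namespace Pool.Agent.W724.SP

theorem var_sub {f g : ℝ → ℝ} {s : Set ℝ} (hf : eVariationOn f s ≠ ⊤)
    (hg : eVariationOn g s ≠ ⊤) : eVariationOn (fun t => f t - g t) s ≠ ⊤ := by
  refine ne_top_of_le_ne_top (ENNReal.add_ne_top.2 ⟨hf, hg⟩) (iSup_le fun p => ?_)
  calc ∑ i ∈ Finset.range p.1, edist (f (p.2.1 (i + 1)) - g (p.2.1 (i + 1)))
        (f (p.2.1 i) - g (p.2.1 i))
      ≤ ∑ i ∈ Finset.range p.1, (edist (f (p.2.1 (i + 1))) (f (p.2.1 i)) +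
          edist (g (p.2.1 (i + 1))) (g (p.2.1 i))) := by
        refine Finset.sum_le_sum fun i _ => ?_
        rw [edist_dist, edist_dist, edist_dist, ← ENNReal.ofReal_add dist_nonneg dist_nonneg]
        refine ENNReal.ofReal_le_ofReal ?_
        rw [Real.dist_eq, Real.dist_eq, Real.dist_eq, sub_sub_sub_comm]
        exact abs_sub _ _
    _ = ∑ i ∈ Finset.range p.1, edist (f (p.2.1 (i + 1))) (f (p.2.1 i)) +
          ∑ i ∈ Finset.range p.1, edist (g (p.2.1 (i + 1))) (g (p.2.1 i)) :=
        Finset.sum_add_distrib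
    _ ≤ eVariationOn f s + eVariationOn g s :=
        add_le_add (eVariationOn.sum_le p.2.2.1 p.2.2.2) (eVariationOn.sum_le p.2.2.1 p.2.2.2)

theorem arctan_lip : LipschitzWith 1 Real.arctan := by
  refine lipschitzWith_of_nnnorm_deriv_le Real.differentiable_arctan fun x => ?_
  rw [← NNReal.coe_le_coe, coe_nnnorm, Real.deriv_arctan, Real.norm_eq_abs, NNReal.coe_one,
    abs_of_nonneg (by positivity), div_le_one (by positivity)]
  nlinarith [sq_nonneg x]

theorem proj_lip {n : ℕ} (i : Fin n) : LipschitzWith 1 (fun x : E n => x i) := by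
  refine LipschitzWith.of_dist_le_mul fun x y => ?_
  rw [NNReal.coe_one, one_mul, Real.dist_eq, dist_eq_norm, ← Real.norm_eq_abs]
  exact PiLp.norm_apply_le (x - y) i

theorem bdd : S_BDD := by
  intro g n hg
  obtain ⟨-, ⟨C, hC⟩, -⟩ := hg
  have hC0 : 0 ≤ C := (abs_nonneg _).trans (hC 0)
  have hat : ∀ x : ℝ, |Real.arctan x| ≤ 2 := by
    intro x
    have h1 := Real.arctan_lt_pi_div_two x
    have h2 := Real.neg_pi_div_two_lt_arctan x
    have h3 := Real.pi_le_four
    rw [abs_le]
    constructor <;> linarith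
  have hco : ∀ (x : E (n + 2)) (i : Fin (n + 2)), ‖FF g n x i‖ ≤ 2 + C := by
    intro x i
    rw [Real.norm_eq_abs]
    refine Fin.cases ?_ (fun j => ?_) i
    · exact (abs_add_le _ _).trans (add_le_add (hat _) (hC _))
    · exact (abs_add_le _ _).trans (add_le_add (hat _) (hC _))
  refine ⟨Real.sqrt ((n + 2 : ℕ) * (2 + C) ^ 2), ?_, fun x => ?_⟩
  · have : (0 : ℝ) < (n + 2 : ℕ) * (2 + C) ^ 2 := by positivity
    exact Real.sqrt_pos.mpr this
  · rw [EuclideanSpace.norm_eq]
    refine Real.sqrt_le_sqrt ?_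
    calc ∑ i, ‖FF g n x i‖ ^ 2 ≤ ∑ _i : Fin (n + 2), (2 + C) ^ 2 :=
          Finset.sum_le_sum fun i _ => pow_le_pow_left₀ (norm_nonneg _) (hco x i) 2
      _ = (n + 2 : ℕ) * (2 + C) ^ 2 := by
          rw [Finset.sum_const, Finset.card_univ, Fintype.card_fin, nsmul_eq_mul]

theorem var (hCRV : S_CRV) : S_VAR := by
  intro g n hg a b γ hab hcont hvar hF
  set A : Fin (n + 2) → ℝ → ℝ := fun i t => Real.arctan (γ t i) with hA
  have hAc : ∀ i, ContinuousOn (A i) (Icc a b) := fun i =>
    Real.continuous_arctan.comp_continuousOn ((proj_lip i).continuous.comp_continuousOn hcont)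
  have hAv : ∀ i, eVariationOn (A i) (Icc a b) ≠ ⊤ := by
    intro i
    have h1 : BoundedVariationOn (fun t => γ t i) (Icc a b) :=
      (proj_lip i).comp_boundedVariationOn hvar
    exact arctan_lip.comp_boundedVariationOn h1
  have hw : ∀ i, eVariationOn (fun t => FF g n (γ t) i) (Icc a b) ≠ ⊤ := fun i =>
    (proj_lip i).comp_boundedVariationOn hF
  -- the coordinates `0 .. n`
  have h1 : ∀ j : Fin (n + 1), ∀ t ∈ Icc a b, A j.castSucc t = A j.castSucc a := by
    intro j
    refine hCRV g hg a b (A j.castSucc) hab (hAc _) ?_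
    have h2 := var_sub (hw j.succ) (hAv j.succ)
    have h3 : (fun t => FF g n (γ t) j.succ - A j.succ t) = fun t => g (A j.castSucc t) := by
      funext t
      change Real.arctan (γ t j.succ) + g (Real.arctan (γ t j.castSucc)) -
        Real.arctan (γ t j.succ) = g (Real.arctan (γ t j.castSucc))
      ring
    rwa [h3] at h2
  -- the last coordinate
  have h2 : ∀ t ∈ Icc a b, A (Fin.last (n + 1)) t = A (Fin.last (n + 1)) a := by
    have h3 := var_sub (hw 0) (hAv 0)
    have h4 : (fun t => FF g n (γ t) 0 - A 0 t) =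
        fun t => g (A (Fin.last (n + 1)) t + g (A (Fin.last n).castSucc t)) := by
      funext t
      change Real.arctan (γ t 0) + g (Real.arctan (γ t (Fin.last (n + 1))) +
        g (Real.arctan (γ t (Fin.last n).castSucc))) - Real.arctan (γ t 0) =
        g (Real.arctan (γ t (Fin.last (n + 1))) + g (Real.arctan (γ t (Fin.last n).castSucc)))
      ring
    rw [h4] at h3
    have h5 := hCRV g hg a b (fun t => A (Fin.last (n + 1)) t + g (A (Fin.last n).castSucc t)) hab
      ((hAc _).add (hg.1.comp_continuousOn (hAc _))) h3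
    intro t ht
    have h6 := h5 t ht
    simp only [h1 (Fin.last n) t ht] at h6
    linarith
  have h3 : ∀ t ∈ Icc a b, γ t = γ a := by
    intro t ht
    refine PiLp.ext fun i => ?_
    refine Real.arctan_injective ?_
    refine Fin.lastCases ?_ (fun j => ?_) i
    · exact h2 t ht
    · exact h1 j t ht
  refine eVariationOn.constant_on ?_
  rintro _ ⟨t, ht, rfl⟩ _ ⟨s, hs, rfl⟩
  rw [h3 t ht, h3 s hs]

end Pool.Agent.W724.SP
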